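import Pool.Agent.U797.NL.Spec

/-!
Project NL, package COL: a colouring with small total weight of the monochromatic pairs.
-/

set_option autoImplicit false

namespace Pool.Agent.U810.NL

open Finset
open scoped Classical

variable {V : Type} [Fintype V]

lemma step (N : ℕ) (w : V → V → ℝ) (hN : 1 ≤ N) (s : Finset V) :
    ∃ f : V → Fin N, (N : ℝ) * ∑ x ∈ s, ∑ y ∈ s, (if x ≠ y ∧ f x = f y then w x y else 0) ≤
      ∑ x ∈ s, ∑ y ∈ s, (if x ≠ y then w x y else 0) := by
  induction s using Finset.induction_on with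
  | empty => exact ⟨fun _ => ⟨0, hN⟩, by simp⟩
  | insert a s ha ih =>
    obtain ⟨f, hf⟩ := ih
    have hne : ∀ x ∈ s, x ≠ a := fun x hx h => ha (h ▸ hx)
    -- the cost of the colour `j`
    set h : Fin N → ℝ := fun j => ∑ y ∈ s, (if f y = j then w a y + w y a else 0) with hh
    have hsum : ∑ j, h j = ∑ y ∈ s, (w a y + w y a) := by
      rw [hh, Finset.sum_comm]
      refine Finset.sum_congr rfl fun y _ => ?_
      simp
    have hN0 : (0 : ℝ) < N := by exact_mod_cast hN
    obtain ⟨j, -, hj⟩ : ∃ j ∈ (univ : Finset (Fin N)), h j ≤ (∑ i, h i) / N := by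
      apply Finset.exists_le_of_sum_le
      · exact ⟨⟨0, hN⟩, mem_univ _⟩
      · rw [Finset.sum_const, Finset.card_univ, Fintype.card_fin, nsmul_eq_mul]
        rw [mul_div_cancel₀ _ hN0.ne']
    rw [le_div_iff₀ hN0, hsum] at hj
    refine ⟨Function.update f a j, ?_⟩
    have e1 : ∀ g : V → V → ℝ, ∑ x ∈ insert a s, ∑ y ∈ insert a s, g x y =
        g a a + ∑ y ∈ s, (g a y + g y a) + ∑ x ∈ s, ∑ y ∈ s, g x y := by
      intro g
      rw [Finset.sum_insert ha, Finset.sum_insert ha]
      rw [Finset.sum_congr rfl fun x _ => Finset.sum_insert ha]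
      rw [Finset.sum_add_distrib, Finset.sum_add_distrib]
      ring
    rw [e1, e1]
    have e2 : ∑ y ∈ s, ((if a ≠ y ∧ Function.update f a j a = Function.update f a j y then w a y
        else 0) + (if y ≠ a ∧ Function.update f a j y = Function.update f a j a then w y a
        else 0)) = h j := by
      refine Finset.sum_congr rfl fun y hy => ?_
      have hya := hne y hy
      rw [Function.update_self, Function.update_of_ne hya]
      by_cases hfj : f y = j
      · simp [hfj, hya, hya.symm]
      · simp [hfj, Ne.symm hfj]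
    have e3 : ∑ x ∈ s, ∑ y ∈ s, (if x ≠ y ∧ Function.update f a j x = Function.update f a j y then
        w x y else 0) = ∑ x ∈ s, ∑ y ∈ s, (if x ≠ y ∧ f x = f y then w x y else 0) := by
      refine Finset.sum_congr rfl fun x hx => Finset.sum_congr rfl fun y hy => ?_
      rw [Function.update_of_ne (hne x hx), Function.update_of_ne (hne y hy)]
    have e4 : ∑ y ∈ s, ((if a ≠ y then w a y else 0) + (if y ≠ a then w y a else 0)) =
        ∑ y ∈ s, (w a y + w y a) := by
      refine Finset.sum_congr rfl fun y hy => ?_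
      rw [if_pos (hne y hy).symm, if_pos (hne y hy)]
    rw [e2, e3, e4]
    simp only [ne_eq, not_true_eq_false, false_and, if_false, zero_add]
    rw [mul_add]
    simp only [ne_eq] at hf
    linarith [mul_comm (N : ℝ) (h j)]

theorem t_COL : Pool.Agent.U797.NL.S_COL := by
  intro V _ N w hN _
  obtain ⟨f, hf⟩ := step N w hN (univ : Finset V)
  exact ⟨f, hf⟩

end Pool.Agent.U810.NL
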